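import Pool.Agent.Lib_helper28.TE28.Main
import Pool.Agent.Lib_helper46.UI.FN

/-!
# Eigenvalues of a representation and its reduction
-/

set_option autoImplicit false

namespace Pool.Agent.BM

open Matrix Polynomial Pool.Agent.RF Pool.Agent.TT Pool.Agent.UI

section red

variable {p : ℕ} [hp : Fact p.Prime] {k : Type} [Field k] {G : Type} [Group G] {d : ℕ}
  {red : nv ℂ_[p] →+* k} {R : G →* Matrix (Fin d) (Fin d) ℂ_[p]}
  {r : G →* Matrix (Fin d) (Fin d) k}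

/-- The value at `σ` reduces to the value at `σ`. -/
theorem rd_value (htr : Rd (nv ℂ_[p]) red R r 1 1) (σ : G) :
    Rd (nv ℂ_[p]) red R r (R σ) (r σ) := by
  intro g
  obtain ⟨t, h1, h2⟩ := htr (σ * g)
  refine ⟨t, ?_, ?_⟩
  · rw [h1, one_mul, map_mul]
  · rw [h2, one_mul, map_mul]

theorem rd_comb (htr : Rd (nv ℂ_[p]) red R r 1 1) (σ : G) (x y : nv ℂ_[p]) :
    Rd (nv ℂ_[p]) red R r ((x : ℂ_[p]) • R σ + (y : ℂ_[p]) • 1) (red x • r σ + red y • 1) :=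
  rd_add (rd_smul x (rd_value htr σ)) (rd_smul y htr)

theorem root_det {C : Type} [Field C] {M : Matrix (Fin d) (Fin d) C} {x : C}
    (hx : x ∈ M.charpoly.roots) : (M - x • 1).det = 0 := by
  rw [mem_roots (Matrix.charpoly_monic _).ne_zero, IsRoot.def, Matrix.eval_charpoly] at hx
  have h1 : M - x • 1 = -(Matrix.scalar (Fin d) x - M) := by
    rw [neg_sub]
    congr 1
    ext i j
    simp [Matrix.scalar_apply, Matrix.one_apply, Matrix.diagonal_apply]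
  rw [h1, Matrix.det_neg, hx, mul_zero]

/-- The eigenvalues are integral. -/
theorem rd_norm (htr : Rd (nv ℂ_[p]) red R r 1 1) (hspan : Submodule.span k (Set.range r) = ⊤)
    (hred : ∀ x : nv ℂ_[p], ‖(x : ℂ_[p])‖ < 1 → red x = 0) (σ : G) {x : ℂ_[p]}
    (hx : x ∈ (R σ).charpoly.roots) : ‖x‖ ≤ 1 := by
  by_contra hcon
  push Not at hcon
  have hx0 : x ≠ 0 := by
    intro h0
    rw [h0, norm_zero] at hcon
    exact absurd hcon (not_lt.2 zero_le_one)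
  have hx1 : ‖x⁻¹‖ < 1 := by
    rw [norm_inv]
    exact inv_lt_one_of_one_lt₀ hcon
  have h1 := rd_comb htr σ (⟨x⁻¹, hx1.le⟩ : nv ℂ_[p]) (-1)
  have h2 : red (⟨x⁻¹, hx1.le⟩ : nv ℂ_[p]) = 0 := hred _ hx1
  rw [h2, zero_smul, zero_add, map_neg, map_one] at h1
  refine det_ne_zero_of_rd htr hspan h1 ?_ ?_
  · rw [neg_smul, one_smul, Matrix.det_neg, Matrix.det_one, mul_one]
    exact pow_ne_zero _ (neg_ne_zero.2 one_ne_zero)
  · have h3 : ((⟨x⁻¹, hx1.le⟩ : nv ℂ_[p]) : ℂ_[p]) • R σ + (((-1 : nv ℂ_[p])) : ℂ_[p]) • 1 =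
        x⁻¹ • (R σ - x • 1) := by
      have h4 : (((-1 : nv ℂ_[p])) : ℂ_[p]) = -1 := rfl
      rw [h4, smul_sub, smul_smul, inv_mul_cancel₀ hx0, one_smul, neg_smul, one_smul,
        sub_eq_add_neg]
    rw [h3, Matrix.det_smul, root_det hx, mul_zero]

theorem red_unit (x : nv ℂ_[p]) (hx : red x = 0) : ‖(x : ℂ_[p])‖ < 1 := by
  by_contra hcon
  have h1 : ‖(x : ℂ_[p])‖ = 1 := le_antisymm x.2 (not_lt.1 hcon)
  have hx0 : (x : ℂ_[p]) ≠ 0 := by
    intro h0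
    rw [h0, norm_zero] at h1
    exact zero_ne_one h1
  have h2 : ‖(x : ℂ_[p])⁻¹‖ ≤ 1 := by
    rw [norm_inv, h1, inv_one]
  have h3 : x * (⟨(x : ℂ_[p])⁻¹, h2⟩ : nv ℂ_[p]) = 1 := by
    apply Subtype.ext
    change (x : ℂ_[p]) * (x : ℂ_[p])⁻¹ = 1
    exact mul_inv_cancel₀ hx0
  have h4 := congrArg red h3
  rw [map_mul, hx, zero_mul, map_one] at h4
  exact zero_ne_one h4

/-- Elements that act trivially modulo `p`. -/
theorem rd_full (htr : Rd (nv ℂ_[p]) red R r 1 1) (hspan : Submodule.span k (Set.range r) = ⊤)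
    (hred : ∀ x : nv ℂ_[p], ‖(x : ℂ_[p])‖ < 1 → red x = 0) {σ : G} (hσ : r σ = 1) :
    residuallyOne (R σ) = d := by
  classical
  have hcard : Multiset.card (R σ).charpoly.roots = d := by
    rw [IsAlgClosed.card_roots_eq_natDegree, Matrix.charpoly_natDegree_eq_dim, Fintype.card_fin]
  unfold residuallyOne
  rw [Multiset.filter_eq_self.2, hcard]
  intro x hx
  have hx1 := rd_norm htr hspan hred σ hx
  have h1 := rd_comb htr σ 1 (-(⟨x, hx1⟩ : nv ℂ_[p]))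
  have h2 : (((1 : nv ℂ_[p])) : ℂ_[p]) • R σ + ((-(⟨x, hx1⟩ : nv ℂ_[p]) : nv ℂ_[p]) : ℂ_[p]) • 1 =
      R σ - x • 1 := by
    have h3 : (((1 : nv ℂ_[p])) : ℂ_[p]) = 1 := rfl
    have h4 : ((-(⟨x, hx1⟩ : nv ℂ_[p]) : nv ℂ_[p]) : ℂ_[p]) = -x := rfl
    rw [h3, h4, one_smul, neg_smul, ← sub_eq_add_neg]
  rw [h2, hσ, map_one, map_neg] at h1
  by_contra hcon
  have h3 : red ⟨x, hx1⟩ ≠ 1 := by
    intro h4
    apply hcon
    have h5 : red (⟨x, hx1⟩ - 1) = 0 := by rw [map_sub, h4, map_one, sub_self]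
    exact red_unit _ h5
  refine det_ne_zero_of_rd htr hspan h1 ?_ (root_det hx)
  have h4 : (1 : k) • (1 : Matrix (Fin d) (Fin d) k) + (-red ⟨x, hx1⟩) • 1 =
      (1 - red ⟨x, hx1⟩) • 1 := by
    rw [← add_smul, sub_eq_add_neg]
  rw [h4, Matrix.det_smul, Matrix.det_one, mul_one]
  exact pow_ne_zero _ (sub_ne_zero.2 (Ne.symm h3))

/-- Elements without eigenvalue `1` modulo `p`. -/
theorem rd_none (htr : Rd (nv ℂ_[p]) red R r 1 1) (hspan : Submodule.span k (Set.range r) = ⊤)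
    (hred : ∀ x : nv ℂ_[p], ‖(x : ℂ_[p])‖ < 1 → red x = 0) {σ : G} (hσ : (r σ - 1).det ≠ 0) :
    residuallyOne (R σ) = 0 := by
  classical
  unfold residuallyOne
  rw [Multiset.card_eq_zero, Multiset.filter_eq_nil]
  intro x hx hcon
  have hx1 := rd_norm htr hspan hred σ hx
  have h1 := rd_comb htr σ 1 (-(⟨x, hx1⟩ : nv ℂ_[p]))
  have h2 : (((1 : nv ℂ_[p])) : ℂ_[p]) • R σ + ((-(⟨x, hx1⟩ : nv ℂ_[p]) : nv ℂ_[p]) : ℂ_[p]) • 1 =
      R σ - x • 1 := by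
    have h3 : (((1 : nv ℂ_[p])) : ℂ_[p]) = 1 := rfl
    have h4 : ((-(⟨x, hx1⟩ : nv ℂ_[p]) : nv ℂ_[p]) : ℂ_[p]) = -x := rfl
    rw [h3, h4, one_smul, neg_smul, ← sub_eq_add_neg]
  have h3 : red ⟨x, hx1⟩ = 1 := by
    have h5 : red (⟨x, hx1⟩ - 1) = 0 := hred _ hcon
    rw [map_sub, map_one] at h5
    exact sub_eq_zero.1 h5
  rw [h2, map_one, map_neg, h3, one_smul, neg_smul, one_smul, ← sub_eq_add_neg] at h1
  exact det_ne_zero_of_rd htr hspan h1 hσ (root_det hx)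

end red

end Pool.Agent.BM
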