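import Pool.Agent.Lib_helper13.BC.Blk

/-!
# The matrices in the wreath product of `SL_2` and a transitive group span all matrices
-/

set_option autoImplicit false

namespace Pool.Agent.BM

open Matrix Pool.Agent.BC Pool.Agent.BranchCurve

section span

variable {n : ℕ} {R : Type} [CommRing R]

/-- The block matrix with one block. -/
def eb (i : Fin n) (X : Matrix (Fin 2) (Fin 2) R) : Matrix (Fin n ⊕ Fin n) (Fin n ⊕ Fin n) R :=
  blk (Pi.single i X)

theorem eb_add (i : Fin n) (X Y : Matrix (Fin 2) (Fin 2) R) : eb i (X + Y) = eb i X + eb i Y := by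
  unfold eb blk
  rw [fromBlocks_add]
  simp only [diagonal_add]
  congr 1 <;> congr 1 <;> funext j <;> by_cases h : j = i
  all_goals first
    | (subst h; simp)
    | (rw [Pi.single_eq_of_ne h, Pi.single_eq_of_ne h, Pi.single_eq_of_ne h]; simp)

theorem eb_sub (i : Fin n) (X Y : Matrix (Fin 2) (Fin 2) R) : eb i (X - Y) = eb i X - eb i Y := by
  rw [eq_sub_iff_add_eq, ← eb_add, sub_add_cancel]

theorem eb_one (i : Fin n) (A : Matrix (Fin 2) (Fin 2) R) :
    eb i (A - 1) = blk (Function.update (fun _ => 1) i A) - 1 := by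
  rw [← blk_one, blk_sub]
  unfold eb
  congr 1
  funext j
  by_cases h : j = i
  · subst h
    rw [Pi.single_eq_same, Function.update_self]
  · rw [Pi.single_eq_of_ne h, Function.update_of_ne h, sub_self]

variable {W : Submodule R (Matrix (Fin n ⊕ Fin n) (Fin n ⊕ Fin n) R)}

theorem eb_mem (h1 : (1 : Matrix (Fin n ⊕ Fin n) (Fin n ⊕ Fin n) R) ∈ W)
    (hW : ∀ A : Fin n → Matrix (Fin 2) (Fin 2) R, (∀ i, (A i).det = 1) → blk A ∈ W) (i : Fin n)
    {A : Matrix (Fin 2) (Fin 2) R} (hA : A.det = 1) : eb i (A - 1) ∈ W := by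
  rw [eb_one]
  refine W.sub_mem (hW _ fun j => ?_) h1
  by_cases h : j = i
  · subst h
    rw [Function.update_self, hA]
  · rw [Function.update_of_ne h, det_one]

theorem eb_all (h1 : (1 : Matrix (Fin n ⊕ Fin n) (Fin n ⊕ Fin n) R) ∈ W)
    (hW : ∀ A : Fin n → Matrix (Fin 2) (Fin 2) R, (∀ i, (A i).det = 1) → blk A ∈ W) (i : Fin n) :
    eb i !![(1 : R), 0; 0, 0] ∈ W ∧ eb i !![(0 : R), 1; 0, 0] ∈ W ∧
      eb i !![(0 : R), 0; 1, 0] ∈ W ∧ eb i !![(0 : R), 0; 0, 1] ∈ W := by
  have hb : eb i !![(0 : R), 1; 0, 0] ∈ W := by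
    have h := eb_mem h1 hW i (A := !![(1 : R), 1; 0, 1]) (by simp [det_fin_two])
    have h2 : !![(1 : R), 1; 0, 1] - 1 = !![(0 : R), 1; 0, 0] := by
      ext a b
      fin_cases a <;> fin_cases b <;> simp
    rwa [h2] at h
  have hc : eb i !![(0 : R), 0; 1, 0] ∈ W := by
    have h := eb_mem h1 hW i (A := !![(1 : R), 0; 1, 1]) (by simp [det_fin_two])
    have h2 : !![(1 : R), 0; 1, 1] - 1 = !![(0 : R), 0; 1, 0] := by
      ext a b
      fin_cases a <;> fin_cases b <;> simp
    rwa [h2] at h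
  have ha : eb i !![(1 : R), 0; 0, 0] ∈ W := by
    have h := eb_mem h1 hW i (A := !![(2 : R), 1; 1, 1]) (by rw [det_fin_two]; simp; ring)
    have h2 : !![(2 : R), 1; 1, 1] - 1 - !![(0 : R), 1; 0, 0] - !![(0 : R), 0; 1, 0] =
        !![(1 : R), 0; 0, 0] := by
      ext a b
      fin_cases a <;> fin_cases b <;> simp
      ring
    rw [← h2, eb_sub, eb_sub]
    exact W.sub_mem (W.sub_mem h hb) hc
  have hd : eb i !![(0 : R), 0; 0, 1] ∈ W := by
    have h := eb_mem h1 hW i (A := !![(1 : R), 1; 1, 2]) (by rw [det_fin_two]; simp; ring)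
    have h2 : !![(1 : R), 1; 1, 2] - 1 - !![(0 : R), 1; 0, 0] - !![(0 : R), 0; 1, 0] =
        !![(0 : R), 0; 0, 1] := by
      ext a b
      fin_cases a <;> fin_cases b <;> simp
      ring
    rw [← h2, eb_sub, eb_sub]
    exact W.sub_mem (W.sub_mem h hb) hc
  exact ⟨ha, hb, hc, hd⟩

theorem eb_single (i j : Fin n) (τ : Equiv.Perm (Fin n)) (hτ : τ j = i) :
    Matrix.single (Sum.inl i) (Sum.inl j) (1 : R) = eb i !![(1 : R), 0; 0, 0] * bp τ ∧
    Matrix.single (Sum.inl i) (Sum.inr j) (1 : R) = eb i !![(0 : R), 1; 0, 0] * bp τ ∧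
    Matrix.single (Sum.inr i) (Sum.inl j) (1 : R) = eb i !![(0 : R), 0; 1, 0] * bp τ ∧
    Matrix.single (Sum.inr i) (Sum.inr j) (1 : R) = eb i !![(0 : R), 0; 0, 1] * bp τ := by
  have key : ∀ x y : Fin n, (if x = i then (1 : R) else 0) * (if x = τ y then 1 else 0) =
      if i = x ∧ j = y then 1 else 0 := by
    intro x y
    by_cases h : x = i
    · subst h
      by_cases h2 : j = y
      · subst h2
        rw [if_pos rfl, if_pos hτ.symm, if_pos ⟨rfl, rfl⟩, mul_one]
      · rw [if_neg (fun h3 => h2 (τ.injective (hτ.trans h3))), mul_zero, if_neg (fun h3 => h2 h3.2)]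
    · rw [if_neg h, zero_mul, if_neg (fun h3 => h h3.1.symm)]
  have hs : ∀ (X : Matrix (Fin 2) (Fin 2) R) (a b : Fin 2) (x : Fin n),
      (Pi.single i X : Fin n → Matrix (Fin 2) (Fin 2) R) x a b =
        (if x = i then (1 : R) else 0) * X a b := by
    intro X a b x
    by_cases h : x = i
    · subst h
      rw [Pi.single_eq_same, if_pos rfl, one_mul]
    · rw [Pi.single_eq_of_ne h, if_neg h, zero_mul]
      rfl
  have hblk : ∀ X : Matrix (Fin 2) (Fin 2) R, eb i X * bp τ =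
      fromBlocks (Matrix.of fun x y => (if i = x ∧ j = y then (1 : R) else 0) * X 0 0)
        (Matrix.of fun x y => (if i = x ∧ j = y then (1 : R) else 0) * X 0 1)
        (Matrix.of fun x y => (if i = x ∧ j = y then (1 : R) else 0) * X 1 0)
        (Matrix.of fun x y => (if i = x ∧ j = y then (1 : R) else 0) * X 1 1) := by
    intro X
    unfold eb blk bp
    rw [fromBlocks_multiply]
    simp only [Matrix.mul_zero, add_zero, zero_add]
    congr 1 <;> ext x y <;> rw [diagonal_mul, pm_apply, hs, of_apply, ← key x y] <;> ring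
  refine ⟨?_, ?_, ?_, ?_⟩ <;> rw [hblk] <;> ext x y <;> rcases x with x | x <;> rcases y with y | y <;>
    simp [Matrix.single_apply]

/-- **The span.** -/
theorem span_main (h1 : (1 : Matrix (Fin n ⊕ Fin n) (Fin n ⊕ Fin n) R) ∈ W)
    (hW : ∀ A : Fin n → Matrix (Fin 2) (Fin 2) R, (∀ i, (A i).det = 1) → blk A ∈ W)
    (hP : ∀ i j : Fin n, ∃ τ : Equiv.Perm (Fin n), τ j = i ∧ ∀ X ∈ W, X * bp τ ∈ W) : W = ⊤ := by
  rw [eq_top_iff]
  intro X _
  rw [Matrix.matrix_eq_sum_single X]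
  refine W.sum_mem fun a _ => W.sum_mem fun b _ => ?_
  have hab : Matrix.single a b (1 : R) ∈ W := by
    rcases a with i | i <;> rcases b with j | j
    all_goals
      obtain ⟨τ, hτ, hτW⟩ := hP i j
      obtain ⟨ha, hb, hc, hd⟩ := eb_all h1 hW i
      obtain ⟨sa, sb, sc, sd⟩ := eb_single (R := R) i j τ hτ
    · rw [sa]; exact hτW _ ha
    · rw [sb]; exact hτW _ hb
    · rw [sc]; exact hτW _ hc
    · rw [sd]; exact hτW _ hd
  have h2 : Matrix.single a b (X a b) = X a b • Matrix.single a b (1 : R) := by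
    rw [Matrix.smul_single, smul_eq_mul, mul_one]
  rw [h2]
  exact W.smul_mem _ hab

end span

end Pool.Agent.BM
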