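import Pool.Agent.Lib_helper13.BC.Tail
import Pool.Agent.Lib_helper13.BM.Defs
import Pool.Agent.Lib_helper13.BM.Red
import Pool.Agent.Lib_helper13.BM.Span

/-!
# Condition (J)
-/

set_option autoImplicit false

namespace Pool.Agent.BM

open NumberField Polynomial Topology Pool.Agent.TT Pool.Agent.TB Pool.Agent.TF Pool.Agent.UI
open Pool.Agent.RF Pool.Agent.BC
open Matrix (symplecticGroup)

/-- A reduction kills small elements. -/
theorem red_small {p : ℕ} [hp : Fact p.Prime] {k : Type} [Field k] [CharP k p]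
    (red : nv ℂ_[p] →+* k) (x : nv ℂ_[p]) (hx : ‖(x : ℂ_[p])‖ < 1) : red x = 0 := by
  have hp0 : (p : ℂ_[p]) ≠ 0 := by
    have := hp.out.ne_zero
    exact_mod_cast this
  obtain ⟨n, hn⟩ := exists_pow_lt_of_lt_one (norm_pos_iff.2 hp0) hx
  have h1 : ‖(x : ℂ_[p]) ^ n * (p : ℂ_[p])⁻¹‖ ≤ 1 := by
    rw [norm_mul, norm_inv, norm_pow, ← div_eq_mul_inv]
    exact div_le_one_of_le₀ hn.le (norm_nonneg _)
  have h2 : x ^ n = (p : nv ℂ_[p]) * (⟨(x : ℂ_[p]) ^ n * (p : ℂ_[p])⁻¹, h1⟩ : nv ℂ_[p]) := by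
    apply Subtype.ext
    have h3 : (((p : nv ℂ_[p])) : ℂ_[p]) = (p : ℂ_[p]) := map_natCast (nv ℂ_[p]).subtype p
    change (x : ℂ_[p]) ^ n = (((p : nv ℂ_[p])) : ℂ_[p]) * ((x : ℂ_[p]) ^ n * (p : ℂ_[p])⁻¹)
    rw [h3, mul_comm, mul_assoc, inv_mul_cancel₀ hp0, mul_one]
  have h3 := congrArg red h2
  rw [map_pow, map_mul, map_natCast, CharP.cast_eq_zero, zero_mul] at h3
  exact eq_zero_of_pow_eq_zero h3

section rep

variable {K : Type} [Field K] [Algebra K Qbar] {p : ℕ} [hp : Fact p.Prime] {g : ℕ}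

/-- The representation over the algebraic closure. -/
noncomputable def kRep {d : ℕ} (e : (Fin g ⊕ Fin g) ≃ Fin d)
    (h : (Qbar ≃ₐ[K] Qbar) →* Matrix (Fin g ⊕ Fin g) (Fin g ⊕ Fin g) (ZMod p)) :
    (Qbar ≃ₐ[K] Qbar) →* Matrix (Fin d) (Fin d) (AlgebraicClosure (ZMod p)) where
  toFun σ := ((h σ).map (algebraMap (ZMod p) (AlgebraicClosure (ZMod p)))).reindex e e
  map_one' := by
    rw [map_one]
    have h1 : (1 : Matrix (Fin g ⊕ Fin g) (Fin g ⊕ Fin g) (ZMod p)).map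
        (algebraMap (ZMod p) (AlgebraicClosure (ZMod p))) = 1 :=
      map_one (algebraMap (ZMod p) (AlgebraicClosure (ZMod p))).mapMatrix
    rw [h1]
    exact map_one (Matrix.reindexAlgEquiv (AlgebraicClosure (ZMod p)) (AlgebraicClosure (ZMod p)) e)
  map_mul' σ τ := by
    rw [map_mul]
    have h1 : (h σ * h τ).map (algebraMap (ZMod p) (AlgebraicClosure (ZMod p))) =
        (h σ).map (algebraMap (ZMod p) (AlgebraicClosure (ZMod p))) *
          (h τ).map (algebraMap (ZMod p) (AlgebraicClosure (ZMod p))) :=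
      map_mul (algebraMap (ZMod p) (AlgebraicClosure (ZMod p))).mapMatrix _ _
    rw [h1]
    exact map_mul (Matrix.reindexAlgEquiv (AlgebraicClosure (ZMod p)) (AlgebraicClosure (ZMod p)) e)
      _ _

theorem kRep_apply {d : ℕ} (e : (Fin g ⊕ Fin g) ≃ Fin d)
    (h : (Qbar ≃ₐ[K] Qbar) →* Matrix (Fin g ⊕ Fin g) (Fin g ⊕ Fin g) (ZMod p))
    (σ : Qbar ≃ₐ[K] Qbar) : kRep e h σ =
      ((h σ).map (algebraMap (ZMod p) (AlgebraicClosure (ZMod p)))).reindex e e := rfl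

theorem kRep_trace {d : ℕ} (e : (Fin g ⊕ Fin g) ≃ Fin d)
    (h : (Qbar ≃ₐ[K] Qbar) →* Matrix (Fin g ⊕ Fin g) (Fin g ⊕ Fin g) (ZMod p))
    (σ : Qbar ≃ₐ[K] Qbar) : (kRep e h σ).trace =
      algebraMap (ZMod p) (AlgebraicClosure (ZMod p)) (h σ).trace := by
  have h1 : (kRep e h σ).trace =
      ∑ i, algebraMap (ZMod p) (AlgebraicClosure (ZMod p)) (h σ (e.symm i) (e.symm i)) := rfl
  rw [h1, Matrix.trace, map_sum]
  exact Equiv.sum_comp e.symm fun j => algebraMap (ZMod p) (AlgebraicClosure (ZMod p)) (h σ j j)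

theorem kRep_open {d : ℕ} (e : (Fin g ⊕ Fin g) ≃ Fin d)
    {h : (Qbar ≃ₐ[K] Qbar) →* Matrix (Fin g ⊕ Fin g) (Fin g ⊕ Fin g) (ZMod p)}
    (hk : IsOpen (h.ker : Set (Qbar ≃ₐ[K] Qbar))) :
    IsOpen ((kRep e h).ker : Set (Qbar ≃ₐ[K] Qbar)) := by
  refine Subgroup.isOpen_mono (H₁ := h.ker) (fun σ hσ => ?_) hk
  have h1 : h σ = 1 := hσ
  show kRep e h σ = 1
  rw [kRep_apply, h1, ← map_one h, ← kRep_apply, map_one]

/-- The span of the values. -/
theorem kRep_span {d : ℕ} (e : (Fin g ⊕ Fin g) ≃ Fin d)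
    {h : (Qbar ≃ₐ[K] Qbar) →* Matrix (Fin g ⊕ Fin g) (Fin g ⊕ Fin g) (ZMod p)}
    (hs : Submodule.span (ZMod p) (Set.range h) = ⊤) :
    Submodule.span (AlgebraicClosure (ZMod p)) (Set.range (kRep e h)) = ⊤ := by
  have key : ∀ X ∈ Submodule.span (ZMod p) (Set.range h),
      (X.map (algebraMap (ZMod p) (AlgebraicClosure (ZMod p)))).reindex e e ∈
        Submodule.span (AlgebraicClosure (ZMod p)) (Set.range (kRep e h)) := by
    intro X hX
    induction hX using Submodule.span_induction with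
    | mem X hX =>
      obtain ⟨σ, rfl⟩ := hX
      exact Submodule.subset_span ⟨σ, rfl⟩
    | zero =>
      convert Submodule.zero_mem _ using 1
      ext i j
      simp
    | add X Y _ _ hX hY =>
      convert Submodule.add_mem _ hX hY using 1
      ext i j
      simp
    | smul c X _ hX =>
      convert Submodule.smul_mem _ (algebraMap (ZMod p) (AlgebraicClosure (ZMod p)) c) hX using 1
      ext i j
      simp
  rw [eq_top_iff]
  intro Y _
  rw [Matrix.matrix_eq_sum_single Y]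
  refine Submodule.sum_mem _ fun a _ => Submodule.sum_mem _ fun b _ => ?_
  have h1 := key (Matrix.single (e.symm a) (e.symm b) (1 : ZMod p)) (by rw [hs]; exact Submodule.mem_top)
  have h2 : Matrix.single a b (Y a b) = Y a b •
      ((Matrix.single (e.symm a) (e.symm b) (1 : ZMod p)).map
        (algebraMap (ZMod p) (AlgebraicClosure (ZMod p)))).reindex e e := by
    ext i j
    rw [Matrix.smul_apply, Matrix.reindex_apply, Matrix.submatrix_apply, Matrix.map_apply,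
      Matrix.single_apply, Matrix.single_apply]
    by_cases h3 : a = i ∧ b = j
    · rw [if_pos h3, if_pos ⟨congrArg _ h3.1, congrArg _ h3.2⟩, map_one, smul_eq_mul, mul_one]
    · rw [if_neg h3, if_neg (fun h4 => h3 ⟨e.symm.injective h4.1, e.symm.injective h4.2⟩), map_zero,
        smul_zero]
  rw [h2]
  exact Submodule.smul_mem _ _ h1

end rep

section jac

variable {K : Type} [Field K] [NumberField K] [Algebra K Qbar] {p a : ℕ} [hp : Fact p.Prime]
  {ζ : 𝓞 K} {s : ℕ} {S : Fin s → BranchTorsion.Term K} {g : ℕ}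

/-- The family in the notation of the library. -/
def toS {K : Type} [Field K] {s : ℕ} (S : Fin s → BranchTorsion.Term K) : Fin s → Stratum K :=
  fun k => ⟨(S k).M, (S k).H, (S k).c⟩

omit [NumberField K] in
theorem kRep_values {d : ℕ} (e : (Fin g ⊕ Fin g) ≃ Fin d)
    {h : (Qbar ≃ₐ[K] Qbar) →* Matrix (Fin g ⊕ Fin g) (Fin g ⊕ Fin g) (ZMod p)}
    (ht : BranchTorsion.AtFrobenius (fun F _ _ φ σ =>
      (h σ).trace = (BranchTorsion.pointCount S φ : ZMod p))) :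
    FrobeniusValues (fun σ => (kRep e h σ).trace) fun _ _ _ φ =>
      ((strataCard φ (toS S) : ℤ) : AlgebraicClosure (ZMod p)) := by
  obtain ⟨B, hB⟩ := ht
  refine ⟨B, fun q hq hqB 𝔓 h𝔓 hq𝔓 F _ _ φ hφ σ hσ => ?_⟩
  have h1 := hB q hq hqB 𝔓 h𝔓 hq𝔓 F φ hφ σ hσ
  beta_reduce at h1 ⊢
  rw [kRep_trace, h1, map_intCast]
  rfl

omit [NumberField K] in
theorem jm_span {h : (Qbar ≃ₐ[K] Qbar) →* Matrix (Fin g ⊕ Fin g) (Fin g ⊕ Fin g) (ZMod p)}
    (P : Subgroup (Equiv.Perm (Fin g))) (hP : ∀ i j, ∃ τ ∈ P, τ i = j)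
    (hw : ∀ τ ∈ P, ∀ M ∈ symplecticGroup (Fin g) (ZMod p), BranchTorsion.PermutesPlanes τ M →
      ∃ σ, h σ = M) : Submodule.span (ZMod p) (Set.range h) = ⊤ := by
  refine span_main (Submodule.subset_span ⟨1, map_one h⟩) ?_ ?_
  · intro A hA
    have h1 := pp_blk A (1 : Equiv.Perm (Fin g))
    rw [bp_one, mul_one] at h1
    obtain ⟨σ, hσ⟩ := hw 1 P.one_mem _ (blk_mem hA) h1
    exact Submodule.subset_span ⟨σ, hσ⟩
  · intro i j
    obtain ⟨τ, hτP, hτ⟩ := hP j i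
    refine ⟨τ, hτ, fun X hX => ?_⟩
    have h1 := pp_blk (fun _ : Fin g => (1 : Matrix (Fin 2) (Fin 2) (ZMod p))) τ
    rw [blk_one, one_mul] at h1
    obtain ⟨σ, hσ⟩ := hw τ hτP _ (bp_mem τ) h1
    rw [← hσ]
    induction hX using Submodule.span_induction with
    | mem X hX =>
      obtain ⟨υ, rfl⟩ := hX
      exact Submodule.subset_span ⟨υ * σ, map_mul h _ _⟩
    | zero => rw [zero_mul]; exact Submodule.zero_mem _
    | add X Y _ _ hX hY => rw [add_mul]; exact Submodule.add_mem _ hX hY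
    | smul c X _ hX => rw [smul_mul_assoc]; exact Submodule.smul_mem _ _ hX

/-- **Condition (J), first alternative.** -/
theorem jm_main (hζ : IsPrimitiveRoot ζ (p ^ a)) (ha : 0 < a)
    {h : (Qbar ≃ₐ[K] Qbar) →* Matrix (Fin g ⊕ Fin g) (Fin g ⊕ Fin g) (ZMod p)}
    (hk : IsOpen (h.ker : Set (Qbar ≃ₐ[K] Qbar)))
    (ht : BranchTorsion.AtFrobenius (fun F _ _ φ σ =>
      (h σ).trace = (BranchTorsion.pointCount S φ : ZMod p)))
    (P : Subgroup (Equiv.Perm (Fin g))) (hP : ∀ i j, ∃ τ ∈ P, τ i = j)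
    (hw : ∀ τ ∈ P, ∀ M ∈ symplecticGroup (Fin g) (ZMod p), BranchTorsion.PermutesPlanes τ M →
      ∃ σ, h σ = M)
    {m : ℕ} [NeZero m] (hm3 : 2 < m) (hm : m.Prime ∨ m = 4) (hφ : m.totient = 2) {b c : ℕ}
    [Fact b.Prime] (hmb : m = b ^ c) (hbp : b ≠ p) {C : Matrix (Fin 2) (Fin 2) (ZMod p)}
    (hC : Rot m C) (ip : K →+* ℂ_[p]) {d : ℕ} (hd : d = 2 * g) (R : Rep K p d)
    (hR : SumRealization R ip (p ^ a) ζ (toS S)) {r : ℕ} [Fact r.Prime] (ir : K →+* ℂ_[r])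
    {d' : ℕ} (X : Rep K r d') (hX : SumRealization X ir (p ^ a) ζ (toS S))
    (g₀ : Qbar ≃ₐ[K] Qbar) (x₀ : ℂ_[r]) (hx₀ : (cycC r g₀ • X g₀).charpoly.IsRoot x₀)
    (hx₀' : ∀ n : ℕ, 0 < n → x₀ ^ n ≠ 1) {ℓ : ℕ} [Fact ℓ.Prime] (il : K →+* PadicAlgCl ℓ)
    {V : Type} [AddCommGroup V] [Module (PadicAlgCl ℓ) V] [Module.Finite (PadicAlgCl ℓ) V]
    (π : Representation (PadicAlgCl ℓ) (Qbar ≃ₐ[K] Qbar) V)
    (hπ : SumTraces (fun σ => LinearMap.trace (PadicAlgCl ℓ) V (π σ)) il (p ^ a) ζ (toS S)) :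
    Pool.Agent.RF.NoTateClasses π 1 := by
  classical
  let e : (Fin g ⊕ Fin g) ≃ Fin d := finSumFinEquiv.trans (finCongr (by omega))
  have hchar : CharP (AlgebraicClosure (ZMod p)) p :=
    charP_of_injective_algebraMap (algebraMap (ZMod p) (AlgebraicClosure (ZMod p))).injective p
  have hspan := kRep_span e (jm_span P hP hw)
  obtain ⟨red, -, htr⟩ := rd_one hζ (toS S) ip R hR.continuous hR.traces (kRep e h)
    (kRep_open e hk) (kRep_values e ht)
  let Φ : (Qbar ≃ₐ[K] Qbar) →* (Matrix (Fin g ⊕ Fin g) (Fin g ⊕ Fin g) (ZMod p))ˣ := h.toHomUnits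
  let T : Multiplicative (Fin g → ZMod m) →* (Matrix (Fin g ⊕ Fin g) (Fin g ⊕ Fin g) (ZMod p))ˣ :=
    (torus g hC.pow).toHomUnits
  have hΦ : ∀ σ, ((Φ σ : (Matrix (Fin g ⊕ Fin g) (Fin g ⊕ Fin g) (ZMod p))ˣ) :
      Matrix (Fin g ⊕ Fin g) (Fin g ⊕ Fin g) (ZMod p)) = h σ := fun σ => rfl
  have hT : ∀ t, ((T t : (Matrix (Fin g ⊕ Fin g) (Fin g ⊕ Fin g) (ZMod p))ˣ) :
      Matrix (Fin g ⊕ Fin g) (Fin g ⊕ Fin g) (ZMod p)) = torus g hC.pow t := fun t => rfl
  refine bm_main hζ ha (toS S) ip R hR ir X hX g₀ x₀ hx₀ hx₀' il π hπ Φ ?_ hm3 hm hmb hbp T ?_ ?_ ?_ ?_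
    ?_ ?_
  · intro σ
    have h1 : IsOpen {y : Qbar ≃ₐ[K] Qbar | σ⁻¹ * y ∈ h.ker} :=
      hk.preimage (continuous_const_mul σ⁻¹)
    refine Filter.mem_of_superset (h1.mem_nhds (by
      show σ⁻¹ * σ ∈ h.ker
      rw [inv_mul_cancel]
      exact h.ker.one_mem)) fun y hy => ?_
    have h2 : h (σ⁻¹ * y) = 1 := hy
    apply Units.ext
    show h y = h σ
    calc h y = h (σ * (σ⁻¹ * y)) := by rw [mul_inv_cancel_left]
      _ = h σ := by rw [map_mul, h2, mul_one]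
  · intro s t hst
    apply torus_inj hC
    rw [← hT, ← hT, hst]
  · intro t
    obtain ⟨h1, h2⟩ := torus_mem hC (n := g) (Multiplicative.toAdd t)
    obtain ⟨σ, hσ⟩ := hw 1 P.one_mem _ h1 h2
    exact ⟨σ, Units.ext hσ⟩
  · intro δ₀ δ c
    obtain ⟨τ, hτP, hτ⟩ := hP δ₀ δ
    obtain ⟨M, hM, hM', hMt⟩ := torus_norm hC τ c
    obtain ⟨σ, hσ⟩ := hw τ hτP M hM hM'
    refine ⟨τ, σ, hτ, fun t => ?_⟩
    rw [mul_inv_eq_iff_eq_mul]
    apply Units.ext
    rw [Units.val_mul, Units.val_mul, hT, hT, hΦ, hσ]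
    exact hMt t
  · rw [hφ, Fintype.card_fin, hd]
    ring
  · intro σ hσ
    refine rd_full htr hspan (red_small red) ?_
    have h1 : h σ = 1 := congrArg Units.val hσ
    rw [kRep_apply, h1, ← map_one h, ← kRep_apply, map_one]
  · intro σ t ht0 hσ
    refine rd_none htr hspan (red_small red) ?_
    obtain ⟨B, hB⟩ := torus_free hC t ht0
    have h1 : h σ = torus g hC.pow (Multiplicative.ofAdd t) := by
      rw [← hΦ, hσ, hT]
    rw [← h1] at hB
    have h2 : (h σ - 1).det ≠ 0 := by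
      intro h0
      have h3 := congrArg Matrix.det hB
      rw [Matrix.det_mul, h0, mul_zero, Matrix.det_one] at h3
      exact zero_ne_one h3
    have h3 : kRep e h σ - 1 =
        ((h σ - 1).map (algebraMap (ZMod p) (AlgebraicClosure (ZMod p)))).reindex e e := by
      ext i j
      rw [kRep_apply, Matrix.sub_apply, Matrix.reindex_apply, Matrix.reindex_apply,
        Matrix.submatrix_apply, Matrix.submatrix_apply, Matrix.map_apply, Matrix.map_apply,
        Matrix.sub_apply, map_sub, Matrix.one_apply, Matrix.one_apply]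
      congr 1
      by_cases h4 : i = j
      · rw [if_pos h4, if_pos (congrArg _ h4), map_one]
      · rw [if_neg h4, if_neg (fun h5 => h4 (e.symm.injective h5)), map_zero]
    rw [h3, Matrix.det_reindex_self]
    have h4 : ((h σ - 1).map (algebraMap (ZMod p) (AlgebraicClosure (ZMod p)))).det =
        algebraMap (ZMod p) (AlgebraicClosure (ZMod p)) (h σ - 1).det :=
      (RingHom.map_det _ _).symm
    rw [h4]
    exact (_root_.map_ne_zero _).2 h2

end jac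

end Pool.Agent.BM
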