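import Pool.Agent.Lib_helper13.BC.Final
import Pool.Agent.Lib_helper13.BM.JM

/-!
# Cyclic covers of surfaces: the final form of the theorem
-/

set_option autoImplicit false

namespace Pool.Agent.BM

open NumberField Polynomial Topology Pool.Agent.TT Pool.Agent.TB Pool.Agent.TF Pool.Agent.UI
open Pool.Agent.RF

section oq

variable {K : Type} [Field K] [NumberField K] [Algebra K Qbar] {a : ℕ} {ζ : 𝓞 K}
  {s : ℕ} {S : Fin s → BranchTorsion.Term K} {g : ℕ}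

omit [NumberField K] in
theorem kRep_contains {d : ℕ} (e : (Fin g ⊕ Fin g) ≃ Fin d)
    (h : (Qbar ≃ₐ[K] Qbar) →* Matrix (Fin g ⊕ Fin g) (Fin g ⊕ Fin g) (ZMod 2)) (hg : 3 ≤ g)
    (q : (Fin g ⊕ Fin g → ZMod 2) → ZMod 2)
    (hq : ∀ x y, q (x + y) = q x + q y + x ⬝ᵥ Matrix.mulVec (Matrix.J (Fin g) (ZMod 2)) y)
    (hO : ∀ M : Matrix (Fin g ⊕ Fin g) (Fin g ⊕ Fin g) (ZMod 2), (∀ x, q (M.mulVec x) = q x) →
      ∃ σ, h σ = M) : ContainsO (kRep e h) := by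
  classical
  refine ⟨inferInstance, g, q,
    (1 : Matrix (Fin g ⊕ Fin g) (Fin g ⊕ Fin g) (AlgebraicClosure (ZMod 2))).submatrix e.symm id,
    (1 : Matrix (Fin g ⊕ Fin g) (Fin g ⊕ Fin g) (AlgebraicClosure (ZMod 2))).submatrix id e.symm,
    hg, hq, ?_, ?_, ?_⟩
  · ext i j
    rw [Matrix.mul_apply]
    simp [Matrix.submatrix_apply, Matrix.one_apply]
  · ext i j
    rw [Matrix.mul_apply]
    have h1 : ∀ x : Fin d,
        (1 : Matrix (Fin g ⊕ Fin g) (Fin g ⊕ Fin g) (AlgebraicClosure (ZMod 2))).submatrix id e.symm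
          i x *
        (1 : Matrix (Fin g ⊕ Fin g) (Fin g ⊕ Fin g) (AlgebraicClosure (ZMod 2))).submatrix e.symm id
          x j =
        (1 : Matrix (Fin g ⊕ Fin g) (Fin g ⊕ Fin g) (AlgebraicClosure (ZMod 2))) i (e.symm x) *
          (1 : Matrix (Fin g ⊕ Fin g) (Fin g ⊕ Fin g) (AlgebraicClosure (ZMod 2))) (e.symm x) j :=
      fun x => rfl
    rw [Finset.sum_congr rfl fun x _ => h1 x, Equiv.sum_comp e.symm fun y =>
      (1 : Matrix (Fin g ⊕ Fin g) (Fin g ⊕ Fin g) (AlgebraicClosure (ZMod 2))) i y *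
        (1 : Matrix (Fin g ⊕ Fin g) (Fin g ⊕ Fin g) (AlgebraicClosure (ZMod 2))) y j,
      ← Matrix.mul_apply, Matrix.one_mul]
  · intro A hA
    obtain ⟨σ, hσ⟩ := hO A hA
    refine ⟨σ, ?_⟩
    rw [kRep_apply, hσ]
    ext i j
    rw [Matrix.mul_apply]
    have h2 : ∀ x, ((1 : Matrix (Fin g ⊕ Fin g) (Fin g ⊕ Fin g)
        (AlgebraicClosure (ZMod 2))).submatrix e.symm id *
        A.map (algebraMap (ZMod 2) (AlgebraicClosure (ZMod 2)))) i x =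
        A.map (algebraMap (ZMod 2) (AlgebraicClosure (ZMod 2))) (e.symm i) x := by
      intro x
      rw [Matrix.mul_apply]
      simp [Matrix.submatrix_apply, Matrix.one_apply]
    rw [Finset.sum_congr rfl fun x _ => by rw [h2 x]]
    simp [Matrix.submatrix_apply, Matrix.one_apply]

/-- **Condition (J), second alternative.** -/
theorem oq_main (hζ : IsPrimitiveRoot ζ (2 ^ a))
    {h : (Qbar ≃ₐ[K] Qbar) →* Matrix (Fin g ⊕ Fin g) (Fin g ⊕ Fin g) (ZMod 2)}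
    (hk : IsOpen (h.ker : Set (Qbar ≃ₐ[K] Qbar)))
    (ht : BranchTorsion.AtFrobenius (fun F _ _ φ σ =>
      (h σ).trace = (BranchTorsion.pointCount S φ : ZMod 2)))
    (hg : 3 ≤ g) (q : (Fin g ⊕ Fin g → ZMod 2) → ZMod 2)
    (hq : ∀ x y, q (x + y) = q x + q y + x ⬝ᵥ Matrix.mulVec (Matrix.J (Fin g) (ZMod 2)) y)
    (hO : ∀ M : Matrix (Fin g ⊕ Fin g) (Fin g ⊕ Fin g) (ZMod 2), (∀ x, q (M.mulVec x) = q x) →
      ∃ σ, h σ = M)
    (ip : K →+* PadicAlgCl 2) {d : ℕ} (hd : d = 2 * g)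
    (ρ : (Qbar ≃ₐ[K] Qbar) →* Matrix (Fin d) (Fin d) (PadicAlgCl 2))
    (hρ : SumTraces (fun σ => (ρ σ).trace) ip (2 ^ a) ζ (toS S))
    (hR : SumRealization (DP.extRep ρ) ((algebraMap (PadicAlgCl 2) ℂ_[2]).comp ip) (2 ^ a) ζ (toS S))
    {r : ℕ} [Fact r.Prime] (ir : K →+* ℂ_[r])
    {d' : ℕ} (X : Rep K r d') (hX : SumRealization X ir (2 ^ a) ζ (toS S))
    (g₀ : Qbar ≃ₐ[K] Qbar) (x₀ : ℂ_[r]) (hx₀ : (cycC r g₀ • X g₀).charpoly.IsRoot x₀)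
    (hx₀' : ∀ n : ℕ, 0 < n → x₀ ^ n ≠ 1) {ℓ : ℕ} [Fact ℓ.Prime] (il : K →+* PadicAlgCl ℓ)
    {V : Type} [AddCommGroup V] [Module (PadicAlgCl ℓ) V] [Module.Finite (PadicAlgCl ℓ) V]
    (π : Representation (PadicAlgCl ℓ) (Qbar ≃ₐ[K] Qbar) V)
    (hπ : SumTraces (fun σ => LinearMap.trace (PadicAlgCl ℓ) V (π σ)) il (2 ^ a) ζ (toS S)) :
    Pool.Agent.RF.NoTateClasses π 1 := by
  classical
  let e : (Fin g ⊕ Fin g) ≃ Fin d := finSumFinEquiv.trans (finCongr (by omega))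
  have hchar : CharP (AlgebraicClosure (ZMod 2)) 2 :=
    charP_of_injective_algebraMap (algebraMap (ZMod 2) (AlgebraicClosure (ZMod 2))).injective 2
  intro H hH W₁ W₂ hW hTate
  exact final hζ (toS S) _ (DP.extRep ρ) hR.continuous hR.traces (kRep e h) (kRep_open e hk)
    (kRep_values e ht) (j := 1)
    (Or.inl ⟨Or.inr (kRep_contains e h hg q hq hO), Or.inr
      (BC.tail_inf (toS S) ir X hX g₀ x₀ hx₀ hx₀' ip ρ hρ)⟩) il π hπ H hH W₁ W₂ hW hTate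

end oq

section final

variable {K : Type} [Field K] [Algebra K Qbar]
  {T : ∀ (F : Type) [Field F] [Fintype F], (𝓞 K →+* F) → 𝓞 K}

theorem fn_sum {ℓ : ℕ} [Fact ℓ.Prime] {d m : ℕ} {ζ : 𝓞 K} {s : ℕ}
    {S : Fin s → BranchTorsion.Term K}
    (hT : ∀ (F : Type) [Field F] [Fintype F] (φ : 𝓞 K →+* F),
      T F φ = BranchTorsion.charSum m ζ S φ)
    {ι : K →+* PadicAlgCl ℓ} {ρ : (Qbar ≃ₐ[K] Qbar) →* Matrix (Fin d) (Fin d) (PadicAlgCl ℓ)}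
    (hρ : BranchTorsion.HasTraces T ι ρ) :
    SumTraces (fun σ => (ρ σ).trace) ι m ζ (toS S) := by
  obtain ⟨B, hB⟩ := hρ.traces
  refine ⟨B, fun q hq hqB 𝔓 h𝔓 hq𝔓 F _ _ φ hφ σ hσ => ?_⟩
  have h1 := hB q hq hqB 𝔓 h𝔓 hq𝔓 F φ hφ σ hσ
  beta_reduce at h1 ⊢
  rw [h1, hT]
  rfl

theorem fn_sum' {ℓ : ℕ} [Fact ℓ.Prime] {d m : ℕ} {ζ : 𝓞 K} {s : ℕ}
    {S : Fin s → BranchTorsion.Term K}
    (hT : ∀ (F : Type) [Field F] [Fintype F] (φ : 𝓞 K →+* F),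
      T F φ = BranchTorsion.charSum m ζ S φ)
    {ι : K →+* PadicAlgCl ℓ} {ρ : (Qbar ≃ₐ[K] Qbar) →* Matrix (Fin d) (Fin d) (PadicAlgCl ℓ)}
    (hρ : BranchTorsion.HasTraces T ι ρ) :
    SumTraces (fun σ => LinearMap.trace (PadicAlgCl ℓ) (Fin d → PadicAlgCl ℓ) (DP.vecRep ρ σ)) ι m ζ
      (toS S) := by
  obtain ⟨B, hB⟩ := fn_sum hT hρ
  refine ⟨B, fun q hq hqB 𝔓 h𝔓 hq𝔓 F _ _ φ hφ σ hσ => ?_⟩
  have h1 := hB q hq hqB 𝔓 h𝔓 hq𝔓 F φ hφ σ hσ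
  beta_reduce at h1 ⊢
  rw [DP.vecRep_trace, h1]

theorem fn_sumC {r : ℕ} [Fact r.Prime] {d m : ℕ} {ζ : 𝓞 K} {s : ℕ}
    {S : Fin s → BranchTorsion.Term K}
    (hT : ∀ (F : Type) [Field F] [Fintype F] (φ : 𝓞 K →+* F),
      T F φ = BranchTorsion.charSum m ζ S φ)
    {ι : K →+* PadicAlgCl r} {ρ : (Qbar ≃ₐ[K] Qbar) →* Matrix (Fin d) (Fin d) (PadicAlgCl r)}
    (hρ : BranchTorsion.HasTraces T ι ρ) :
    SumRealization (DP.extRep ρ) ((algebraMap (PadicAlgCl r) ℂ_[r]).comp ι) m ζ (toS S) := by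
  refine ⟨?_, ?_⟩
  · have h1 : Continuous (algebraMap (PadicAlgCl r) ℂ_[r]) :=
      UniformSpace.Completion.continuous_coe _
    exact hρ.continuous.matrix_map h1
  · obtain ⟨B, hB⟩ := fn_sum hT hρ
    refine ⟨B, fun q hq hqB 𝔓 h𝔓 hq𝔓 F _ _ φ hφ σ hσ => ?_⟩
    have h1 := hB q hq hqB 𝔓 h𝔓 hq𝔓 F φ hφ σ hσ
    beta_reduce at h1 ⊢
    have h2 : ((ρ σ⁻¹).map (algebraMap (PadicAlgCl r) ℂ_[r])).trace =
        algebraMap (PadicAlgCl r) ℂ_[r] (ρ σ⁻¹).trace := by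
      rw [Matrix.trace, Matrix.trace, map_sum]
      rfl
    rw [DP.extRep_apply, h2, h1]
    rfl

/-- **The main theorem.** -/
theorem fn_cover [NumberField K] {p a : ℕ} [hp : Fact p.Prime] {ζ : 𝓞 K}
    (hζ : IsPrimitiveRoot ζ (p ^ a)) (ha : 0 < a) {d : ℕ}
    (hT : BranchTorsion.ConditionJ p (p ^ a) ζ T d ∨ BranchTorsion.ConditionW p (p ^ a) ζ T)
    (ρ : ∀ (ℓ : ℕ) [Fact ℓ.Prime], (K →+* PadicAlgCl ℓ) →
      (Qbar ≃ₐ[K] Qbar) →* Matrix (Fin d) (Fin d) (PadicAlgCl ℓ))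
    (hρ : ∀ (ℓ : ℕ) [Fact ℓ.Prime] (ι : K →+* PadicAlgCl ℓ), BranchTorsion.HasTraces T ι (ρ ℓ ι))
    (hB : ∃ (r : ℕ) (_ : Fact r.Prime) (ι : K →+* PadicAlgCl r),
      BranchTorsion.NotAllRootsOfUnity (ρ r ι))
    (ℓ : ℕ) [Fact ℓ.Prime] (ι : K →+* PadicAlgCl ℓ) : BranchTorsion.NoTateClasses (ρ ℓ ι) := by
  classical
  rcases hT with hT | hT
  · obtain ⟨s, S, g, h, hT, hd, hk, ht, hcase⟩ := hT
    obtain ⟨r, _, ir, g₀, x₀, hx₀, hx₀'⟩ := hB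
    let ip : K →+* PadicAlgCl p :=
      (IsAlgClosed.lift (R := ℚ) (S := K) (M := PadicAlgCl p)).toRingHom
    have hx₁ : ∀ n : ℕ, 0 < n → (algebraMap (PadicAlgCl r) ℂ_[r] x₀) ^ n ≠ 1 := by
      intro n hn h1
      apply hx₀' n hn
      apply (algebraMap (PadicAlgCl r) ℂ_[r]).injective
      rw [map_pow, h1, map_one]
    have hmain : Pool.Agent.RF.NoTateClasses (DP.vecRep (ρ ℓ ι)) 1 := by
      rcases hcase with ⟨P, hP, hw⟩ | ⟨hp2, hg, q, hq, hO⟩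
      · by_cases hp2 : p = 2
        · subst hp2
          have h3 : Fact (Nat.Prime 3) := ⟨Nat.prime_three⟩
          exact jm_main hζ ha hk ht P hP hw (m := 3) (by norm_num) (Or.inl Nat.prime_three) (by decide)
            (b := 3) (c := 1) (by norm_num) (by norm_num) BC.rot_three _ hd (DP.extRep (ρ 2 ip))
            (fn_sumC hT (hρ 2 ip)) _ (DP.extRep (ρ r ir)) (fn_sumC hT (hρ r ir)) g₀ _
            (DP.fn_eigC hx₀) hx₁ ι _ (fn_sum' hT (hρ ℓ ι))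
        · have h3 : Fact (Nat.Prime 2) := ⟨Nat.prime_two⟩
          exact jm_main hζ ha hk ht P hP hw (m := 4) (by norm_num) (Or.inr rfl) (by decide)
            (b := 2) (c := 2) (by norm_num) (fun h => hp2 h.symm) (BC.rot_four hp2) _ hd
            (DP.extRep (ρ p ip)) (fn_sumC hT (hρ p ip)) _ (DP.extRep (ρ r ir))
            (fn_sumC hT (hρ r ir)) g₀ _ (DP.fn_eigC hx₀) hx₁ ι _ (fn_sum' hT (hρ ℓ ι))
      · subst hp2
        exact oq_main hζ hk ht hg q hq hO ip hd (ρ 2 ip) (fn_sum hT (hρ 2 ip))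
          (fn_sumC hT (hρ 2 ip)) _ (DP.extRep (ρ r ir)) (fn_sumC hT (hρ r ir)) g₀ _
          (DP.fn_eigC hx₀) hx₁ ι _ (fn_sum' hT (hρ ℓ ι))
    intro H hH W₁ W₂ hW hT
    refine hmain H hH W₁ W₂ hW ?_
    intro σ hσ x hx
    rw [pow_one, DP.vecRep_apply]
    have h3 := hT σ hσ x hx
    have h4 : (BranchTorsion.twist (ρ ℓ ι) σ).mulVec x = cyc ℓ σ • (ρ ℓ ι σ).mulVec x :=
      Matrix.smul_mulVec _ _ _
    rwa [h4] at h3
  · obtain ⟨D, h, hD, hh, hm, hm2, hmp, hirr, hA, hT⟩ := hT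
    have hreal : ∀ (l : ℕ) [Fact l.Prime] (κ : K →+* PadicAlgCl l),
        DP.IsRealization D h (p ^ a) ζ κ (ρ l κ) := by
      intro l _ κ
      refine ⟨(hρ l κ).continuous, ?_⟩
      obtain ⟨B, hB⟩ := (hρ l κ).traces
      refine ⟨B, fun q hq hqB 𝔓 h𝔓 hq𝔓 F _ _ φ hφ σ hσ => ?_⟩
      have h1 := hB q hq hqB 𝔓 h𝔓 hq𝔓 F φ hφ σ hσ
      beta_reduce at h1 ⊢
      rw [h1, hT]
      rfl
    have h1 : DP.NoTateClasses (ρ ℓ ι) :=
      DP.mn_cover hζ ha hD hh hm hm2 hmp hirr hA ρ hreal hB ℓ ι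
    intro H hH W₁ W₂ hW h2
    refine h1 H hH W₁ W₂ hW fun σ hσ x hx => ?_
    have h3 := h2 σ hσ x hx
    have h4 : (BranchTorsion.twist (ρ ℓ ι) σ).mulVec x = cyc ℓ σ • (ρ ℓ ι σ).mulVec x :=
      Matrix.smul_mulVec _ _ _
    rwa [h4] at h3

end final

end Pool.Agent.BM
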